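import Mathlib

/-! Project LH: the piece TEL (Mathlib only). -/

set_option autoImplicit false

namespace Pool.Agent.V7H45.LH

open Filter Topology

theorem tel : ∀ (h g f : ℕ → ℝ) (G : ℝ), (∀ n, 0 < h n) → (∀ n, 0 ≤ g n) → (∀ n, 0 ≤ f n) →
  (∀ n, h (n + 1) ≤ g (n + 1) + ∑ m ∈ Finset.range n, f (m + 1) * h (n - m)) →
  (∀ N, ∑ m ∈ Finset.range N, g (m + 1) ≤ G) →
  (∀ N, ∑ m ∈ Finset.range N, f (m + 1) ≤ 1) →
  (∀ A : ℝ, ∃ K : ℕ, A < ∑ k ∈ Finset.range K, (1 - ∑ m ∈ Finset.range k, f (m + 1))) →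
  (∀ j : ℕ, Tendsto (fun n => h (n - j) / h n) atTop (𝓝 1)) →
  Tendsto h atTop (𝓝 0) := by
  intro h g f G hh hg hf h1 h2 h3 h4 h5
  obtain ⟨r, hr⟩ : ∃ r : ℕ → ℝ, r = fun k => 1 - ∑ m ∈ Finset.range k, f (m + 1) := ⟨_, rfl⟩
  have hr0 : ∀ k, 0 ≤ r k := fun k => by
    rw [hr]
    have := h3 k
    simp only
    linarith
  have hrz : r 0 = 1 := by rw [hr]; simp
  have hrs : ∀ k, r (k + 1) = r k - f (k + 1) := fun k => by
    rw [hr]
    simp only [Finset.sum_range_succ]
    ring
  have h4' : ∀ A : ℝ, ∃ K : ℕ, A < ∑ k ∈ Finset.range K, r k := by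
    rw [hr]
    exact h4
  have hT : ∀ n, ∑ k ∈ Finset.range n, h (n - k) * r k ≤ ∑ m ∈ Finset.range n, g (m + 1) := by
    intro n
    induction n with
    | zero => simp
    | succ n ih =>
      rw [Finset.sum_range_succ', Finset.sum_range_succ (fun m => g (m + 1))]
      have e1 : ∑ k ∈ Finset.range n, h (n + 1 - (k + 1)) * r (k + 1) =
          ∑ k ∈ Finset.range n, h (n - k) * r k -
            ∑ k ∈ Finset.range n, f (k + 1) * h (n - k) := by
        rw [← Finset.sum_sub_distrib]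
        apply Finset.sum_congr rfl
        intro k _
        rw [hrs, Nat.add_sub_add_right]
        ring
      rw [e1, Nat.sub_zero, hrz, mul_one]
      have := h1 n
      linarith
  have hG : 0 ≤ G := by simpa using h2 0
  rw [Metric.tendsto_atTop]
  intro ε hε
  obtain ⟨K, hK⟩ := h4' ((G + 1) / ε)
  have hA : 0 < (G + 1) / ε := by positivity
  have hlim : Tendsto (fun n => ∑ k ∈ Finset.range K, h (n - k) / h n * r k) atTop
      (𝓝 (∑ k ∈ Finset.range K, 1 * r k)) :=
    tendsto_finsetSum _ fun k _ => (h5 k).mul_const (r k)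
  simp only [one_mul] at hlim
  obtain ⟨N, hN⟩ := (hlim.eventually (lt_mem_nhds hK)).exists_forall_of_atTop
  refine ⟨max N K, fun n hn => ?_⟩
  have hn1 : N ≤ n := (le_max_left _ _).trans hn
  have hn2 : K ≤ n := (le_max_right _ _).trans hn
  have h6 := hN n hn1
  have h7 : ∑ k ∈ Finset.range K, h (n - k) * r k ≤ G := by
    refine le_trans ?_ ((hT n).trans (h2 n))
    apply Finset.sum_le_sum_of_subset_of_nonneg
    · intro x hx
      rw [Finset.mem_range] at hx ⊢
      omega
    · intro k _ _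
      exact mul_nonneg (hh _).le (hr0 k)
  have h8 : h n * ∑ k ∈ Finset.range K, h (n - k) / h n * r k =
      ∑ k ∈ Finset.range K, h (n - k) * r k := by
    rw [Finset.mul_sum]
    apply Finset.sum_congr rfl
    intro k _
    have := (hh n).ne'
    field_simp
  have h9 : h n * ((G + 1) / ε) < G + 1 := by
    calc h n * ((G + 1) / ε) < h n * ∑ k ∈ Finset.range K, h (n - k) / h n * r k :=
          mul_lt_mul_of_pos_left h6 (hh n)
      _ ≤ G := by rw [h8]; exact h7
      _ < G + 1 := by linarith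
  rw [Real.dist_eq, sub_zero, abs_of_pos (hh n)]
  have h10 : h n * (G + 1) < (G + 1) * ε := by
    rw [mul_div_assoc', div_lt_iff₀ hε] at h9
    exact h9
  nlinarith

end Pool.Agent.V7H45.LH
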