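import Pool.Agent.V7H4.LH.Spec
import Pool.Agent.V7H45.LH.TELcore

set_option autoImplicit false

namespace Pool.Agent.V7H45.LH

open Pool.Agent.V7H4.LH

theorem t_TEL : S_TEL := tel

end Pool.Agent.V7H45.LH
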